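import Pool.Agent.H31.FreeL

open Pool.Agent.H31.FreeL

universe u

theorem Pool.Agent.Results.MP_f94ac9_gt.Main.result :
    ∀ (X L : Type u) [TopologicalSpace X] [TopologicalSpace.MetrizableSpace X]
      [AddCommGroup L] [Module ℝ L] [TopologicalSpace L] [T2Space L] [ContinuousAdd L]
      [ContinuousConstSMul ℝ L] (e : X → L), IsFree e → T2Space L ∧ ParacompactSpace L := by
  intro X L _ _ _ _ _ h _ _ e he
  letI := TopologicalSpace.metrizableSpaceMetric X
  exact ⟨h, main he⟩
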